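import Pool.Agent.H82.EUC.Stmts4

set_option autoImplicit false

namespace Pool.EUC

theorem psh_aux {A : Type} (d : A → ℝ) (hd : Function.Injective d) (a b c e : A)
    (h1 : d c = min (d a) (d b)) (h2 : d e = max (d a) (d b)) :
    (c = a ∧ e = b) ∨ (c = b ∧ e = a) := by
  rcases le_total (d a) (d b) with h | h
  · rw [min_eq_left h] at h1
    rw [max_eq_right h] at h2
    exact Or.inl ⟨hd h1, hd h2⟩
  · rw [min_eq_right h] at h1
    rw [max_eq_left h] at h2
    exact Or.inr ⟨hd h1, hd h2⟩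

theorem psh_thm : PSH_S := by
  intro A P _ dM dW hM hW g hg x U hU
  have hm := hg.meet U (LowerSet.Iic x)
  have hj := hg.join U (LowerSet.Iic x)
  rw [hU] at hm
  have hMm : ∀ m, (g (LowerSet.Iio x) m = g U m ∧
      g (U ⊔ LowerSet.Iic x) m = g (LowerSet.Iic x) m) ∨
      (g (LowerSet.Iio x) m = g (LowerSet.Iic x) m ∧ g (U ⊔ LowerSet.Iic x) m = g U m) :=
    fun m => psh_aux (dM m) (hM m) _ _ _ _ (hm.2 m) (hj.2 m)
  have hWw : ∀ w, ((g (U ⊔ LowerSet.Iic x)).symm w = (g U).symm w ∧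
      (g (LowerSet.Iio x)).symm w = (g (LowerSet.Iic x)).symm w) ∨
      ((g (U ⊔ LowerSet.Iic x)).symm w = (g (LowerSet.Iic x)).symm w ∧
        (g (LowerSet.Iio x)).symm w = (g U).symm w) :=
    fun w => psh_aux (dW w) (hW w) _ _ _ _ (hj.1 w) (hm.1 w)
  refine ⟨?_, ?_, ?_, ?_⟩
  · intro m h
    rcases hMm m with h1 | h1
    · exact ⟨h1.1.symm, h1.2⟩
    · exact absurd h1.1 h
  · intro m h
    rcases hMm m with h1 | h1
    · have h2 : g (LowerSet.Iio x) m = g (LowerSet.Iic x) m := not_not.1 h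
      rw [h1.2, ← h1.1, h2]
    · exact h1.2.symm
  · intro w h
    rcases hWw w with h1 | h1
    · exact absurd h1.2 h
    · exact ⟨h1.2.symm, h1.1⟩
  · intro w h
    rcases hWw w with h1 | h1
    · exact h1.1.symm
    · have h2 : (g (LowerSet.Iio x)).symm w = (g (LowerSet.Iic x)).symm w := not_not.1 h
      rw [h1.1, ← h1.2, h2]

end Pool.EUC
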